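import Pool.Agent.Helper86.TH.Asm

/-!
# The scalar product identity between `e_{m,km+n}` and `Theta_{e_k} e_{n,m}`

Problem `MP_1b3f64_co`, Q1.  `Lam K` is the ring of symmetric functions over a field `K` of
characteristic zero, `q` and `t` are algebraically independent over the rational numbers (for
example `K = Q(q,t)`).
-/

namespace Pool.Agent.Results.MP_1b3f64_co.ScalarProductIdentity

open MvPolynomial Finset

noncomputable section

/-! ## Symmetric functions -/

/-- The ring of symmetric functions over `K`, i.e. the polynomial ring in the power sums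
`p_1, p_2, ...`; the variable `X j` is `p_{j+1}`. -/
abbrev Lam (K : Type*) [Field K] := MvPolynomial ℕ K

section Field

variable {K : Type*} [Field K]

/-- Newton's recursion `h_0 = 1`, `(n+1) h_{n+1} = sum_{i=0}^{n} p_{i+1} h_{n-i}` for the complete
homogeneous functions in terms of the power sums `p_{i+1} = p i`. -/
def newton (p : ℕ → Lam K) : ℕ → Lam K
  | 0 => 1
  | (n + 1) => ((n : K) + 1)⁻¹ • ∑ i : Fin (n + 1), p i * newton p (n - i)

/-- The complete homogeneous symmetric function `h_n`. -/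
def h (n : ℕ) : Lam K := newton (fun j => X j) n

/-- The elementary symmetric function `e_n`: `(n+1) e_{n+1} = sum_i (-1)^i p_{i+1} e_{n-i}`. -/
def e (n : ℕ) : Lam K := newton (fun j => (-1) ^ j * X j) n

/-- `h_n` for an integer `n`, zero for negative `n`. -/
def hInt (n : ℤ) : Lam K := if 0 ≤ n then h n.toNat else 0

/-- The Schur function of `(lam 0, ..., lam (N-1))`, by the Jacobi-Trudi formula
`det (h_{lam_i - i + j})_{0 <= i, j < N}`. -/
def schur (N : ℕ) (lam : ℕ → ℕ) : Lam K :=
  Matrix.det (Matrix.of fun i j : Fin N => hInt ((lam i : ℤ) - (i : ℤ) + (j : ℤ)))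

/-- The Hall scalar product: the power sum products `p_lambda` are orthogonal and
`<p_lambda, p_lambda> = z_lambda = prod_i i^{m_i} m_i!`. -/
def hall (F G : Lam K) : K :=
  ∑ s ∈ F.support, F.coeff s * G.coeff s * ∏ j ∈ s.support, ((s j).factorial : K) * ((j : K) + 1) ^ s j

/-- The plethysm `p_{j+1} ↦ c_j p_{j+1}`. -/
def pleth (c : ℕ → K) : Lam K →ₐ[K] Lam K := aeval (fun j => C (c j) * X j)

/-! ## Partitions and the modified Macdonald polynomials -/

/-- Partitions: weakly decreasing, finitely supported sequences. -/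
abbrev Par := {f : ℕ →₀ ℕ // Antitone f}

/-- The number of cells. -/
def size (μ : Par) : ℕ := ∑ i ∈ μ.1.support, μ.1 i

/-- The length of column `j`, i.e. the part with index `j` of the conjugate partition. -/
def conj (μ : Par) (j : ℕ) : ℕ := (μ.1.support.filter (fun i => j < μ.1 i)).card

/-- `Dominates g f`: `g_0 + ... + g_{k-1} >= f_0 + ... + f_{k-1}` for all `k`. -/
def Dominates (g f : ℕ → ℕ) : Prop := ∀ k, ∑ i ∈ range k, f i ≤ ∑ i ∈ range k, g i

/-- The span of the Schur functions of the partitions of `n` that dominate `f`. -/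
def schurSpan (n : ℕ) (f : ℕ → ℕ) : Submodule K (Lam K) :=
  Submodule.span K {s | ∃ ν : Par, size ν = n ∧ Dominates ν.1 f ∧ s = schur n ν.1}

/-- Haiman's characterisation of the modified Macdonald polynomials:
`H_mu[X(1-q)]` lies in the span of the `s_lambda`, `lambda >= mu`; `H_mu[X(1-t)]` lies in the span of
the `s_lambda`, `lambda >= mu'`; `<H_mu, h_n> = 1` for `n = |mu|`. -/
structure ModifiedMacdonald (q t : K) (H : Par → Lam K) : Prop where
  tri_q : ∀ μ, pleth (fun j => 1 - q ^ (j + 1)) (H μ) ∈ schurSpan (size μ) μ.1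
  tri_t : ∀ μ, pleth (fun j => 1 - t ^ (j + 1)) (H μ) ∈ schurSpan (size μ) (conj μ)
  norm : ∀ μ, hall (H μ) (h (size μ)) = 1

/-- `B_mu`: the sum of `q^{column} t^{row}` over the cells. -/
def B (q t : K) (μ : Par) : K := ∑ i ∈ μ.1.support, ∑ j ∈ range (μ.1 i), q ^ j * t ^ i

/-- `Pi_mu`: the product of `1 - q^{column} t^{row}` over the cells other than the corner. -/
def PiEig (q t : K) (μ : Par) : K :=
  ∏ i ∈ μ.1.support, ∏ j ∈ range (μ.1 i), if i = 0 ∧ j = 0 then 1 else 1 - q ^ j * t ^ i

/-- The operators of the problem: `De = Delta_{e_1}` and `P = Pi` are diagonal on the modified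
Macdonald polynomials with eigenvalues `B_mu` and `Pi_mu`, `P'` is the inverse of `P`. -/
structure MacdonaldOperators (q t : K) (H : Par → Lam K) (De P P' : Module.End K (Lam K)) :
    Prop where
  delta : ∀ μ, De (H μ) = B q t μ • H μ
  pi : ∀ μ, P (H μ) = PiEig q t μ • H μ
  inv : ∀ F, P' (P F) = F

/-- `Theta_{e_k} F` for `k >= 1`: `Pi (e_k[X/M] Pi^{-1} F')`, where `F'` is `F` without its part of
degree zero; for `k = 0` it is `F`. -/
def Theta (q t : K) (P P' : Module.End K (Lam K)) (k : ℕ) (F : Lam K) : Lam K :=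
  if k = 0 then F else
    P (pleth (fun j => ((1 - q ^ (j + 1)) * (1 - t ^ (j + 1)))⁻¹) (e k)
      * P' (F - C (constantCoeff F)))

/-- The families `Q_{m,n}`: `Q_{1,0} = id - M Delta_{e_1}`, `Q_{0,1}` is multiplication by `-e_1`,
and for `m, n > 0` the operator `Q_{m,n}` is `M^{-1} [Q_{c,d}, Q_{a,b}]` for some `a, b, c, d` with
`a + c = m`, `b + d = n`, `a d - b c = gcd (m, n)`. -/
structure QFamily (q t : K) (De : Module.End K (Lam K)) (Q : ℕ → ℕ → Module.End K (Lam K)) :
    Prop where
  q10 : Q 1 0 = 1 - ((1 - q) * (1 - t)) • De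
  q01 : ∀ F, Q 0 1 F = -(e 1 * F)
  rec_pos : ∀ m n : ℕ, 0 < m → 0 < n → ∃ a b c d : ℕ, a + c = m ∧ b + d = n ∧
    a * d = b * c + Nat.gcd m n ∧
    Q m n = ((1 - q) * (1 - t))⁻¹ • (Q c d * Q a b - Q a b * Q c d)

/-- For `m = g a`, `n = g b` with `g = gcd (m, n)`:
`sum_{lambda |- g} c_lambda prod_i Q_{lambda_i a, lambda_i b} (1)`.  For the coefficients `c_lambda`
in `f = sum_{lambda |- g} c_lambda (qt/(qt-1))^{l(lambda)} h_lambda[(1-qt)/(qt) X]` this is the
element `F_{a,b}(f)` of the problem, and `e_{m,n}` for `f = e_g`. -/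
def eLit (Q : ℕ → ℕ → Module.End K (Lam K)) (c : (g : ℕ) → Nat.Partition g → K) (m n : ℕ) :
    Lam K :=
  ∑ l : Nat.Partition (Nat.gcd m n), c _ l •
    (((l.parts.sort (· ≥ ·)).map
      (fun i => Q (i * (m / Nat.gcd m n)) (i * (n / Nat.gcd m n)))).prod : Module.End K (Lam K)) 1

/-- The usual normalisation `(-1)^{n + gcd (m, n)} e_{m,n}` (so that `e_{1,n}` is `e_n`). -/
def eStd (Q : ℕ → ℕ → Module.End K (Lam K)) (c : (g : ℕ) → Nat.Partition g → K) (m n : ℕ) :
    Lam K :=
  (-1 : K) ^ (n + Nat.gcd m n) • eLit Q c m n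

end Field

section Main

variable {K : Type*} [Field K] [CharZero K]

theorem newton_eq (p : ℕ → Lam K) (n : ℕ) : newton p n = TH.hc p n := by
  refine TH.hc_unique p (newton p) (by rw [newton]) (fun n => ?_) n
  have h1 : newton p (n + 1) = ((n : K) + 1)⁻¹ • ∑ i : Fin (n + 1), p i * newton p (n - i) := by
    rw [newton]
  have h2 : ((n : Lam K) + 1) = C ((n : K) + 1) := by simp
  rw [h1, h2, ← MvPolynomial.smul_eq_C_mul, smul_smul,
    mul_inv_cancel₀ (by exact_mod_cast Nat.succ_ne_zero n), one_smul,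
    Fin.sum_univ_eq_sum_range (fun i => p i * newton p (n - i)) (n + 1)]

theorem h_eq (n : ℕ) : (h n : Lam K) = TH.hh K n := newton_eq _ n

theorem e_eq (n : ℕ) : (e n : Lam K) = TH.ee K n := newton_eq _ n

theorem hInt_eq (n : ℤ) : (hInt n : Lam K) = TH.hz K n := by
  rw [hInt, TH.hz, h_eq]

theorem schur_eq (N : ℕ) (lam : ℕ → ℕ) : (schur N lam : Lam K) = TH.schur K N lam := by
  rw [schur, TH.schur]
  simp only [hInt_eq]

theorem hall_eq (F G : Lam K) : hall F G = TH.hall F G := by
  have h1 : ∀ s : ℕ →₀ ℕ, TH.hall (monomial s (1 : K)) G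
      = (∏ j ∈ s.support, ((s j).factorial : K) * ((j : K) + 1) ^ s j) * G.coeff s := by
    intro s
    have h2 : (monomial s (1 : K) : Lam K) = (MvPolynomial.basisMonomials ℕ K) s := by
      rw [MvPolynomial.coe_basisMonomials]
    rw [h2, TH.hall, TH.bf, Module.Basis.constr_basis]
    rfl
  have h3 : TH.hall F G = ∑ s ∈ F.support, F.coeff s * TH.hall (monomial s (1 : K)) G := by
    conv_lhs => rw [F.as_sum]
    rw [map_sum, LinearMap.sum_apply]
    refine Finset.sum_congr rfl fun s _ => ?_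
    rw [show (monomial s (F.coeff s) : Lam K) = F.coeff s • monomial s (1 : K) by
      rw [smul_monomial, smul_eq_mul, mul_one], map_smul, LinearMap.smul_apply, smul_eq_mul]
  rw [h3, hall]
  refine Finset.sum_congr rfl fun s _ => ?_
  rw [h1]
  ring

theorem pleth_eq (q : K) : (pleth (fun j => 1 - q ^ (j + 1)) : Lam K →ₐ[K] Lam K) = TH.plq q := rfl

theorem pleth_e (q t : K) (k : ℕ) :
    pleth (fun j => ((1 - q ^ (j + 1)) * (1 - t ^ (j + 1)))⁻¹) (e k) = TH.est q t k := by
  rw [e_eq, TH.ee, TH.est]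
  have h1 := TH.hc_map (pleth (fun j => ((1 - q ^ (j + 1)) * (1 - t ^ (j + 1)))⁻¹)
    : Lam K →ₐ[K] Lam K).toRingHom (fun j => (-1) ^ j * (X j : Lam K)) k
  refine Eq.trans h1 ?_
  congr 1
  funext j
  change (pleth (fun j => ((1 - q ^ (j + 1)) * (1 - t ^ (j + 1)))⁻¹)
    : Lam K →ₐ[K] Lam K) ((-1) ^ j * (X j : Lam K)) = _
  rw [map_mul, map_pow, map_neg, map_one, pleth, aeval_X, TH.Mj]

theorem B_eq (q t : K) (μ : Par) : B q t μ = TH.Ps q t μ 0 := by
  rw [B, TH.Ps, TH.csum]
  refine Finset.sum_congr rfl fun i _ => Finset.sum_congr rfl fun j _ => ?_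
  rw [zero_add, pow_one]

theorem PiEig_eq (q t : K) (μ : Par) : PiEig q t μ = TH.Pim q t μ := rfl

theorem haiman (q t : K) (H : Par → Lam K) (hH : ModifiedMacdonald q t H) :
    TH.IsHaiman q t H := by
  have hs : ∀ (n : ℕ) (f : ℕ → ℕ), (schurSpan n f : Submodule K (Lam K)) = TH.SpD K n f := by
    intro n f
    unfold schurSpan TH.SpD
    simp only [schur_eq]
    rfl
  refine ⟨fun μ => ?_, fun μ => ?_, fun μ => ?_⟩
  · have := hH.tri_q μ
    rw [hs] at this
    exact this
  · have := hH.tri_t μ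
    rw [hs] at this
    exact this
  · have := hH.norm μ
    rw [hall_eq, h_eq] at this
    exact this

/-- **Q1 of MP_1b3f64_co.**  Let `K` be a field of characteristic zero with algebraically
independent `q, t` over the rational numbers, `H` the modified Macdonald polynomials, `De, P, P'`
the operators `Delta_{e_1}`, `Pi` and `Pi^{-1}`, `Q` the family of operators `Q_{m,n}`, and `c` any
family of coefficients `c_lambda`.  For all `m, n >= 1` and `k, d >= 0` with
`d <= min (m + k, n + k)`, and the partition `rho` with `k` parts equal to `m - 1`: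
`<e_{m,km+n}, h_d e_{n+k-d} s_rho> = <h_d e_{m+k-d}, Theta_{e_k} e_{n,m}>` for the usual normalisation
`eStd` of the elements `e_{m,n}`, and the same identity holds up to the sign `(-1)^{(k+1)m+n}` for
the elements `eLit`. -/
theorem result (K : Type*) [Field K] [CharZero K] (q t : K) (hqt : AlgebraicIndependent ℚ ![q, t])
    (H : Par → Lam K) (hH : ModifiedMacdonald q t H)
    (De P P' : Module.End K (Lam K)) (hop : MacdonaldOperators q t H De P P')
    (Q : ℕ → ℕ → Module.End K (Lam K)) (hQ : QFamily q t De Q)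
    (c : (g : ℕ) → Nat.Partition g → K) (m n k d : ℕ) (hm : 1 ≤ m) (hn : 1 ≤ n)
    (hd : d ≤ min (m + k) (n + k)) :
    hall (eStd Q c m (k * m + n)) (h d * e (n + k - d) * schur k (fun _ => m - 1))
      = hall (h d * e (m + k - d)) (Theta q t P P' k (eStd Q c n m)) ∧
    hall (eLit Q c m (k * m + n)) (h d * e (n + k - d) * schur k (fun _ => m - 1))
      = (-1) ^ ((k + 1) * m + n) *
        hall (h d * e (m + k - d)) (Theta q t P P' k (eLit Q c n m)) := by
  have hdata : TH.Data q t H De P P' Q := by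
    refine ⟨haiman q t H hH, fun μ => ?_, fun μ => ?_, hop.inv, ?_, fun F => ?_, fun m n hm hn => ?_⟩
    · rw [hop.delta, B_eq]
    · rw [hop.pi, PiEig_eq]
    · rw [hQ.q10, TH.Mj, zero_add, pow_one, pow_one]
    · rw [hQ.q01, e_eq]
    · obtain ⟨a, b, c, d, h1, h2, h3, h4⟩ := hQ.rec_pos m n hm hn
      refine ⟨a, b, c, d, h1, h2, h3, ?_⟩
      rw [h4, TH.Mj, zero_add, pow_one, pow_one]
  have hmain := TH.final K q t hqt H De P P' Q hdata c m n k d hm hn hd
  have hTh : ∀ F : Lam K, Theta q t P P' k F = TH.Theta q t P P' k F := by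
    intro F
    rw [Theta, TH.Theta, pleth_e]
  have hlit : hall (eLit Q c m (k * m + n)) (h d * e (n + k - d) * schur k (fun _ => m - 1))
      = (-1) ^ ((k + 1) * m + n) *
        hall (h d * e (m + k - d)) (Theta q t P P' k (eLit Q c n m)) := by
    rw [hall_eq, hall_eq, h_eq, e_eq, e_eq, schur_eq, hTh]
    exact hmain
  refine ⟨?_, hlit⟩
  have hsm : ∀ (a : K) (F G : Lam K), hall (a • F) G = a * hall F G := by
    intro a F G
    rw [hall_eq, hall_eq, map_smul, LinearMap.smul_apply, smul_eq_mul]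
  have hsm' : ∀ (a : K) (F G : Lam K), hall F (a • G) = a * hall F G := by
    intro a F G
    rw [hall_eq, hall_eq, map_smul, smul_eq_mul]
  have hThs : ∀ (a : K) (F : Lam K), Theta q t P P' k (a • F) = a • Theta q t P P' k F := by
    intro a F
    rw [Theta, Theta]
    split_ifs
    · rfl
    · have h1 : a • F - C (constantCoeff (a • F)) = a • (F - C (constantCoeff F)) := by
        rw [constantCoeff_smul, smul_sub, smul_eq_mul, map_mul, ← MvPolynomial.smul_eq_C_mul]
      rw [h1, map_smul, mul_smul_comm, map_smul]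
  rw [eStd, eStd, hsm, hThs, hsm', hlit]
  have hg : Nat.gcd m (k * m + n) = Nat.gcd n m := by
    rw [add_comm, Nat.gcd_add_mul_right_right, Nat.gcd_comm]
  rw [hg, ← mul_assoc, ← pow_add]
  congr 1
  have h2 : k * m + n + Nat.gcd n m + ((k + 1) * m + n) = 2 * (k * m + n) + (m + Nat.gcd n m) := by
    ring
  rw [h2, pow_add, pow_mul]
  simp

end Main

end

end Pool.Agent.Results.MP_1b3f64_co.ScalarProductIdentity
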